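import Pool.Agent.W2helper3.BQ.Stm3

set_option autoImplicit false

/-! # Piece PT3 of project BQ3 -/

namespace Pool.Agent.W2helper17.BQ

open Pool.Agent.W2helper3.BQ

theorem rpow_split {x r : ℝ} (hx : 0 ≤ x) (hr : 2 ≤ r) : x ^ (r - 2) * x ^ 2 = x ^ r := by
  rw [← Real.rpow_two, ← Real.rpow_add_of_nonneg hx (by linarith) (by norm_num)]
  congr 1
  ring

theorem two_rpow_ge (p : ℝ) (hp : 1 ≤ p) : p ≤ 2 ^ p := by
  have h := one_add_mul_self_le_rpow_one_add (s := (1 : ℝ)) (by norm_num) hp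
  have h2 : (1 : ℝ) + 1 = 2 := by norm_num
  rw [h2] at h
  linarith

theorem p_PT3 : P_PT3 := by
  intro p q hp hq hqp a X₀ X' G B lam ha hX₀ hX' hG hB hlam h1 h2 h3
  have hp0 : 0 < p := by linarith
  set b := B / p with hb
  have hb0 : 0 ≤ b := by positivity
  have hBb : B = p * b := by rw [hb]; field_simp
  have hlb : b ≤ lam * b := by nlinarith
  have hX2 : X₀ ^ (p - 2) * a ^ 2 ≤ 2 * b := by
    rw [hBb] at h1
    have h4 : p * (X₀ ^ (p - 2) * a ^ 2) ≤ p * (2 * b) := by nlinarith
    exact le_of_mul_le_mul_left h4 hp0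
  have e8 : (1 / 8 : ℝ) ^ p * a ^ p = (a / 8) ^ p := by
    rw [← Real.mul_rpow (by norm_num) ha]
    congr 1
    ring
  -- P3
  have P3 : (a / 8) ^ p ≤ b := by
    rcases le_or_gt (4 * X₀) a with hc | hc
    · have h4 : (a / 8) ^ p = (1 / 4) ^ p * ((1 / 2) ^ p * a ^ p) := by
        rw [← Real.mul_rpow (by norm_num) ha, ← Real.mul_rpow (by norm_num) (by positivity)]
        congr 1
        ring
      have h5 : (1 / 4 : ℝ) ^ p ≤ 1 / p := by
        rw [one_div, Real.inv_rpow (by norm_num), one_div]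
        refine inv_anti₀ hp0 ((two_rpow_ge p (by linarith)).trans ?_)
        exact Real.rpow_le_rpow (by norm_num) (by norm_num) hp0.le
      rw [h4]
      calc (1 / 4 : ℝ) ^ p * ((1 / 2) ^ p * a ^ p) ≤ 1 / p * B :=
            mul_le_mul h5 (h2 hc) (by positivity) (by positivity)
        _ = b := by rw [hb]; ring
    · have h4 : (a / 8) ^ p = (a / 8) ^ (p - 2) * (a / 8) ^ 2 :=
        (rpow_split (by positivity) (by linarith)).symm
      have h5 : (a / 8) ^ (p - 2) ≤ X₀ ^ (p - 2) :=
        Real.rpow_le_rpow (by positivity) (by linarith) (by linarith)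
      rw [h4]
      calc (a / 8) ^ (p - 2) * (a / 8) ^ 2 ≤ X₀ ^ (p - 2) * (a / 8) ^ 2 :=
            mul_le_mul_of_nonneg_right h5 (by positivity)
        _ = X₀ ^ (p - 2) * a ^ 2 / 64 := by ring
        _ ≤ b := by linarith
  -- P1
  have P1 : X' ^ (p - 2) * a ^ 2 ≤ 2 * (lam * b) + 64 * G + 64 * b := by
    rcases le_or_gt a (8 * X') with hc | hc
    · rcases le_or_gt X' X₀ with hX | hX
      · have h4 : X' ^ (p - 2) ≤ X₀ ^ (p - 2) := Real.rpow_le_rpow hX' hX (by linarith)
        have h5 := mul_le_mul_of_nonneg_right h4 (by positivity : (0 : ℝ) ≤ a ^ 2)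
        linarith
      · have hX'pos : 0 < X' := by linarith
        have h6 : a ^ 2 ≤ 64 * X' ^ 2 := by nlinarith
        have h8 : X' ^ (p - 2) * X' ^ 2 ≤ (lam * X₀ ^ (p - 2) + G / X' ^ 2) * X' ^ 2 := by
          rw [rpow_split hX' (by linarith), add_mul,
            div_mul_cancel₀ _ (by positivity : X' ^ 2 ≠ 0)]
          refine h3.trans (add_le_add ?_ le_rfl)
          rw [mul_assoc, ← rpow_split hX₀ (by linarith : 2 ≤ p)]
          refine mul_le_mul_of_nonneg_left ?_ (by linarith)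
          refine mul_le_mul_of_nonneg_left ?_ (by positivity)
          gcongr
        have h9 : X' ^ (p - 2) ≤ lam * X₀ ^ (p - 2) + G / X' ^ 2 :=
          le_of_mul_le_mul_right h8 (by positivity)
        calc X' ^ (p - 2) * a ^ 2 ≤ (lam * X₀ ^ (p - 2) + G / X' ^ 2) * a ^ 2 :=
              mul_le_mul_of_nonneg_right h9 (by positivity)
          _ = lam * (X₀ ^ (p - 2) * a ^ 2) + a ^ 2 * (G / X' ^ 2) := by ring
          _ ≤ lam * (2 * b) + 64 * X' ^ 2 * (G / X' ^ 2) := by
              refine add_le_add (mul_le_mul_of_nonneg_left hX2 (by linarith)) ?_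
              exact mul_le_mul_of_nonneg_right h6 (by positivity)
          _ = 2 * (lam * b) + 64 * G := by
              field_simp
          _ ≤ 2 * (lam * b) + 64 * G + 64 * b := by linarith
    · have h4 : X' ^ (p - 2) ≤ (a / 8) ^ (p - 2) :=
        Real.rpow_le_rpow hX' (by linarith) (by linarith)
      calc X' ^ (p - 2) * a ^ 2 ≤ (a / 8) ^ (p - 2) * a ^ 2 :=
            mul_le_mul_of_nonneg_right h4 (by positivity)
        _ = 64 * ((a / 8) ^ (p - 2) * (a / 8) ^ 2) := by ring
        _ = 64 * (a / 8) ^ p := by rw [rpow_split (by positivity) (by linarith)]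
        _ ≤ 64 * b := by linarith
        _ ≤ 2 * (lam * b) + 64 * G + 64 * b := by
            have : 0 ≤ lam * b := by positivity
            linarith
  -- P2
  have hq8 : (64 : ℝ) ≤ 8 ^ q := by
    calc (64 : ℝ) = 8 ^ (2 : ℝ) := by norm_num
      _ ≤ 8 ^ q := Real.rpow_le_rpow_of_exponent_le (by norm_num) hq
  have hq2 : (8 : ℝ) ^ (q - 2) = 8 ^ q / 64 := by
    have := rpow_split (x := 8) (by norm_num) hq
    rw [← this]
    norm_num
  have P2 : X' ^ (p - q) * a ^ q ≤
      8 ^ q / 64 * (X' ^ (p - 2) * a ^ 2) + 8 ^ q * b := by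
    rcases le_or_gt a (8 * X') with hc | hc
    · have h4 : a ^ (q - 2) ≤ (8 * X') ^ (q - 2) := Real.rpow_le_rpow ha hc (by linarith)
      have h5 : X' ^ (p - q) * X' ^ (q - 2) = X' ^ (p - 2) := by
        rw [← Real.rpow_add_of_nonneg hX' (by linarith) (by linarith)]
        congr 1
        ring
      calc X' ^ (p - q) * a ^ q = X' ^ (p - q) * (a ^ (q - 2) * a ^ 2) := by
            rw [rpow_split ha hq]
        _ ≤ X' ^ (p - q) * ((8 * X') ^ (q - 2) * a ^ 2) := by
            refine mul_le_mul_of_nonneg_left ?_ (by positivity)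
            exact mul_le_mul_of_nonneg_right h4 (by positivity)
        _ = X' ^ (p - q) * (8 ^ (q - 2) * X' ^ (q - 2) * a ^ 2) := by
            rw [Real.mul_rpow (by norm_num) hX']
        _ = 8 ^ (q - 2) * (X' ^ (p - q) * X' ^ (q - 2) * a ^ 2) := by ring
        _ = 8 ^ q / 64 * (X' ^ (p - 2) * a ^ 2) := by rw [h5, hq2]
        _ ≤ 8 ^ q / 64 * (X' ^ (p - 2) * a ^ 2) + 8 ^ q * b := by
            have : (0 : ℝ) ≤ 8 ^ q * b := by positivity
            linarith
    · have h4 : X' ^ (p - q) ≤ (a / 8) ^ (p - q) :=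
        Real.rpow_le_rpow hX' (by linarith) (by linarith)
      calc X' ^ (p - q) * a ^ q ≤ (a / 8) ^ (p - q) * a ^ q :=
            mul_le_mul_of_nonneg_right h4 (by positivity)
        _ = (a / 8) ^ (p - q) * (8 * (a / 8)) ^ q := by
            congr 2
            ring
        _ = (a / 8) ^ (p - q) * (8 ^ q * (a / 8) ^ q) := by
            rw [Real.mul_rpow (by norm_num) (by positivity)]
        _ = 8 ^ q * ((a / 8) ^ (p - q) * (a / 8) ^ q) := by ring
        _ = 8 ^ q * (a / 8) ^ p := by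
            rw [← Real.rpow_add_of_nonneg (by positivity) (by linarith) (by linarith)]
            congr 2
            ring
        _ ≤ 8 ^ q * b := mul_le_mul_of_nonneg_left P3 (by positivity)
        _ ≤ 8 ^ q / 64 * (X' ^ (p - 2) * a ^ 2) + 8 ^ q * b := by
            have : (0 : ℝ) ≤ 8 ^ q / 64 * (X' ^ (p - 2) * a ^ 2) := by positivity
            linarith
  rw [e8]
  have hgoal : lam / p * B = lam * b := by rw [hb]; ring
  rw [hgoal]
  set Q : ℝ := 8 ^ q with hQ
  set L := lam * b with hL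
  have hL0 : 0 ≤ L := by positivity
  have hP1' : Q / 64 * (X' ^ (p - 2) * a ^ 2) ≤ Q / 64 * (2 * L + 64 * G + 64 * b) :=
    mul_le_mul_of_nonneg_left P1 (by positivity)
  have hQL : 64 * L ≤ Q * L := mul_le_mul_of_nonneg_right hq8 hL0
  have hQG : 64 * G ≤ Q * G := mul_le_mul_of_nonneg_right hq8 hG
  have hQb : Q * b ≤ Q * L := mul_le_mul_of_nonneg_left hlb (by positivity)
  nlinarith

end Pool.Agent.W2helper17.BQ
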